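import Pool.Agent.U585.CM.Hyper
import Pool.Agent.U585.GC.Sum

/-!
# Sums of a completely multiplicative function with values cube roots of unity over intervals
-/

set_option autoImplicit false

open Finset

namespace Pool.Agent.U585.CM

open Pool.Agent.U585.GC (PN mem_PN small_pow harm)

/-- the completely multiplicative function with the values `s p` at the primes -/
noncomputable def cm (s : ℕ → ℂ) (n : ℕ) : ℂ := ∏ p ∈ n.primeFactors, s p ^ n.factorization p

/-- primes with exponent `1` modulo `3` -/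
noncomputable def c1 (n : ℕ) : Finset ℕ := n.primeFactors.filter (fun p => n.factorization p % 3 = 1)

/-- primes with exponent `2` modulo `3` -/
noncomputable def c2 (n : ℕ) : Finset ℕ := n.primeFactors.filter (fun p => n.factorization p % 3 = 2)

lemma cm_eq {s : ℕ → ℂ} (hs : ∀ p, s p ^ 3 = 1) (n : ℕ) :
    cm s n = (∏ p ∈ c1 n, s p) * ∏ p ∈ c2 n, (starRingEnd ℂ) (s p) := by
  unfold cm c1 c2
  rw [prod_filter, prod_filter, ← prod_mul_distrib]
  refine prod_congr rfl fun p _ => ?_
  have h1 : s p ^ n.factorization p = s p ^ (n.factorization p % 3) := by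
    conv_lhs => rw [← Nat.div_add_mod (n.factorization p) 3]
    rw [pow_add, pow_mul, hs, one_pow, one_mul]
  rw [h1]
  have h2 : n.factorization p % 3 < 3 := Nat.mod_lt _ (by norm_num)
  have h3 : (starRingEnd ℂ) (s p) = s p ^ 2 := by
    have h4 : s p * (starRingEnd ℂ) (s p) = 1 := by
      rw [Complex.mul_conj, Complex.normSq_eq_norm_sq, nrm (hs p)]; norm_num
    have h5 : s p ≠ 0 := fun h => by rw [h, zero_mul] at h4; exact zero_ne_one h4
    have h6 : s p * (starRingEnd ℂ) (s p) = s p * s p ^ 2 := by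
      rw [h4, ← pow_succ', hs]
    exact mul_left_cancel₀ h5 h6
  generalize n.factorization p % 3 = r at h2 ⊢
  interval_cases r
  · simp
  · simp
  · simp [h3]

/-- the cube-free part -/
noncomputable def cfq (n : ℕ) : ℕ := (∏ p ∈ c1 n, p) * ∏ p ∈ c2 n, p ^ 2

/-- the cube root of the cube part -/
noncomputable def cru (n : ℕ) : ℕ := ∏ p ∈ n.primeFactors, p ^ (n.factorization p / 3)

lemma dec (n : ℕ) (hn : n ≠ 0) : n = cfq n * cru n ^ 3 := by
  unfold cfq cru c1 c2
  rw [prod_filter, prod_filter, ← prod_mul_distrib, ← prod_pow, ← prod_mul_distrib]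
  conv_lhs => rw [← Nat.prod_factorization_pow_eq_self hn]
  rw [Finsupp.prod, Nat.support_factorization]
  refine prod_congr rfl fun p _ => ?_
  have h1 : (n.factorization p) = n.factorization p % 3 + n.factorization p / 3 * 3 := by omega
  conv_lhs => rw [h1]
  rw [pow_add, pow_mul]
  congr 1
  have h2 : n.factorization p % 3 < 3 := Nat.mod_lt _ (by norm_num)
  generalize n.factorization p % 3 = r at h2 ⊢
  interval_cases r <;> simp

lemma cru_pos (n : ℕ) : 1 ≤ cru n := by
  unfold cru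
  exact Nat.one_le_iff_ne_zero.2 (prod_ne_zero_iff.2 fun p hp => pow_ne_zero _ (Nat.prime_of_mem_primeFactors hp).ne_zero)

lemma cfq_pos (n : ℕ) : 1 ≤ cfq n := by
  unfold cfq
  refine Nat.one_le_iff_ne_zero.2 (mul_ne_zero (prod_ne_zero_iff.2 fun p hp => ?_) (prod_ne_zero_iff.2 fun p hp => ?_))
  · exact (Nat.prime_of_mem_primeFactors (mem_filter.1 hp).1).ne_zero
  · exact pow_ne_zero _ (Nat.prime_of_mem_primeFactors (mem_filter.1 hp).1).ne_zero

/-- the triples -/
noncomputable def trip (H : ℕ) : Finset (ℕ × ℕ × ℕ) :=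
  ((Icc 1 H) ×ˢ ((Icc 1 H) ×ˢ (Icc 1 H))).filter (fun z => z.1 * (z.2.1 * z.2.2) ≤ H)

lemma trip_card (H : ℕ) (hH : 1 ≤ H) : ((trip H).card : ℝ) ≤ H * (1 + Real.log H) ^ 2 := by
  have h1 : (trip H).card ≤ ∑ w ∈ (Icc 1 H) ×ˢ (Icc 1 H), H / (w.1 * w.2) := by
    have h2 : trip H ⊆ ((Icc 1 H) ×ˢ (Icc 1 H)).biUnion fun w => (Icc 1 (H / (w.1 * w.2))).image fun q => (q, w) := by
      intro z hz
      unfold trip at hz
      rw [mem_filter, mem_product, mem_product, mem_Icc, mem_Icc, mem_Icc] at hz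
      rw [mem_biUnion]
      refine ⟨z.2, by rw [mem_product, mem_Icc, mem_Icc]; exact hz.1.2, ?_⟩
      rw [mem_image]
      refine ⟨z.1, ?_, rfl⟩
      rw [mem_Icc]
      refine ⟨hz.1.1.1, ?_⟩
      rw [Nat.le_div_iff_mul_le (Nat.mul_pos hz.1.2.1.1 hz.1.2.2.1)]
      exact hz.2
    refine (card_le_card h2).trans (card_biUnion_le.trans (sum_le_sum fun w _ => ?_))
    refine card_image_le.trans ?_
    rw [Nat.card_Icc, Nat.add_sub_cancel]
  have h3 : ((∑ w ∈ (Icc 1 H) ×ˢ (Icc 1 H), H / (w.1 * w.2) : ℕ) : ℝ) ≤ H * (∑ d ∈ Icc 1 H, (1 : ℝ) / d) ^ 2 := by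
    push_cast
    calc ∑ w ∈ (Icc 1 H) ×ˢ (Icc 1 H), ((H / (w.1 * w.2) : ℕ) : ℝ)
        ≤ ∑ w ∈ (Icc 1 H) ×ˢ (Icc 1 H), (H : ℝ) * ((1 / (w.1 : ℝ)) * (1 / (w.2 : ℝ))) := by
          refine sum_le_sum fun w _ => ?_
          refine (Nat.cast_div_le).trans (le_of_eq ?_)
          push_cast
          rw [div_mul_div_comm, one_mul, mul_one_div]
      _ = H * (∑ d ∈ Icc 1 H, (1 : ℝ) / d) ^ 2 := by
          rw [← mul_sum, sq, sum_mul_sum, ← sum_product']
  have h4 : ∑ d ∈ Icc 1 H, (1 : ℝ) / d ≤ 1 + Real.log H := by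
    have := harm (H : ℝ) (by exact_mod_cast hH)
    rwa [Nat.floor_natCast] at this
  have h5 : 0 ≤ ∑ d ∈ Icc 1 H, (1 : ℝ) / d := sum_nonneg fun _ _ => by positivity
  calc ((trip H).card : ℝ) ≤ ((∑ w ∈ (Icc 1 H) ×ˢ (Icc 1 H), H / (w.1 * w.2) : ℕ) : ℝ) := by exact_mod_cast h1
    _ ≤ H * (∑ d ∈ Icc 1 H, (1 : ℝ) / d) ^ 2 := h3
    _ ≤ _ := mul_le_mul_of_nonneg_left (pow_le_pow_left₀ h5 h4 2) (Nat.cast_nonneg _)

/-- the pairs of integers of an interval in the same class -/
noncomputable def prs (M H : ℕ) : Finset (ℕ × ℕ) :=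
  ((Ioc M (M + H)) ×ˢ (Ioc M (M + H))).filter (fun z => c1 z.1 = c1 z.2 ∧ c2 z.1 = c2 z.2)

lemma prs_card (M H : ℕ) (hH : 1 ≤ H) : ((prs M H).card : ℝ) ≤ 3 * (H * (1 + Real.log H) ^ 2) := by
  classical
  have h1 : prs M H ⊆ ((Ioc M (M + H)).image fun n => (n, n)) ∪ ((prs M H).filter (fun z => z.1 < z.2) ∪
      ((prs M H).filter (fun z => z.1 < z.2)).image Prod.swap) := by
    intro z hz
    have hz0 := hz
    unfold prs at hz
    rw [mem_filter, mem_product] at hz
    rcases lt_trichotomy z.1 z.2 with h | h | h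
    · exact mem_union_right _ (mem_union_left _ (mem_filter.2 ⟨hz0, h⟩))
    · refine mem_union_left _ (mem_image.2 ⟨z.1, hz.1.1, ?_⟩)
      exact Prod.ext rfl h
    · refine mem_union_right _ (mem_union_right _ (mem_image.2 ⟨z.swap, ?_, Prod.swap_swap z⟩))
      rw [mem_filter]
      refine ⟨?_, h⟩
      unfold prs
      rw [mem_filter, mem_product]
      exact ⟨⟨hz.1.2, hz.1.1⟩, hz.2.1.symm, hz.2.2.symm⟩
  have h2 : ((prs M H).filter (fun z => z.1 < z.2)).card ≤ (trip H).card := by
    refine card_le_card_of_injOn (fun z => (cfq z.1, cru z.1, cru z.2 - cru z.1)) ?_ ?_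
    · intro z hz
      have hz' := mem_filter.1 hz
      have hz2 := mem_filter.1 hz'.1
      have hz3 := mem_product.1 hz2.1
      have hn := mem_Ioc.1 hz3.1
      have hm := mem_Ioc.1 hz3.2
      have hq : cfq z.1 = cfq z.2 := by unfold cfq; rw [hz2.2.1, hz2.2.2]
      have e1 := dec z.1 (by omega)
      have e2 := dec z.2 (by omega)
      rw [← hq] at e2
      have hu1 := cru_pos z.1
      have hq1 := cfq_pos z.1
      have hlt : cru z.1 < cru z.2 := by
        by_contra hcon
        rw [not_lt] at hcon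
        have : z.2 ≤ z.1 := by
          rw [e1, e2]
          exact Nat.mul_le_mul_left _ (Nat.pow_le_pow_left hcon 3)
        omega
      have hprod : cfq z.1 * (cru z.1 * (cru z.2 - cru z.1)) ≤ H := by
        obtain ⟨d, hd⟩ : ∃ d, cru z.2 = cru z.1 + d := ⟨cru z.2 - cru z.1, by omega⟩
        have hd1 : 1 ≤ d := by omega
        rw [hd, Nat.add_sub_cancel_left]
        rw [hd] at e2
        have h5 : cfq z.1 * cru z.1 ^ 3 + cfq z.1 * (cru z.1 * d) ≤ cfq z.1 * (cru z.1 + d) ^ 3 := by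
          rw [← mul_add]
          refine Nat.mul_le_mul_left _ ?_
          have e5 : (cru z.1 + d) ^ 3 = cru z.1 ^ 3 + cru z.1 * d * (3 * cru z.1 + 3 * d) + d ^ 3 := by ring
          have h6 : cru z.1 * d ≤ cru z.1 * d * (3 * cru z.1 + 3 * d) := Nat.le_mul_of_pos_right _ (by omega)
          rw [e5]
          omega
        rw [← e1, ← e2] at h5
        omega
      simp only [trip, coe_filter, mem_product, mem_Icc, Set.mem_ofPred_eq]
      have hA : 1 ≤ cru z.2 - cru z.1 := by omega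
      refine ⟨⟨⟨hq1, ?_⟩, ⟨hu1, ?_⟩, hA, ?_⟩, hprod⟩
      · exact (Nat.le_mul_of_pos_right _ (Nat.mul_pos hu1 hA)).trans hprod
      · refine le_trans ?_ hprod
        calc cru z.1 ≤ cru z.1 * (cru z.2 - cru z.1) := Nat.le_mul_of_pos_right _ hA
          _ ≤ _ := Nat.le_mul_of_pos_left _ hq1
      · refine le_trans ?_ hprod
        calc cru z.2 - cru z.1 ≤ cru z.1 * (cru z.2 - cru z.1) := Nat.le_mul_of_pos_left _ hu1
          _ ≤ _ := Nat.le_mul_of_pos_left _ hq1
    · intro z hz w hw hzw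
      have hz' := mem_filter.1 hz
      have hz2 := mem_filter.1 hz'.1
      have hz3 := mem_product.1 hz2.1
      have hn := mem_Ioc.1 hz3.1
      have hm := mem_Ioc.1 hz3.2
      have hw' := mem_filter.1 hw
      have hw2 := mem_filter.1 hw'.1
      have hw3 := mem_product.1 hw2.1
      have hn' := mem_Ioc.1 hw3.1
      have hm' := mem_Ioc.1 hw3.2
      have hq : cfq z.1 = cfq z.2 := by unfold cfq; rw [hz2.2.1, hz2.2.2]
      have hq' : cfq w.1 = cfq w.2 := by unfold cfq; rw [hw2.2.1, hw2.2.2]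
      have e1 := dec z.1 (by omega)
      have e2 := dec z.2 (by omega)
      have e3 := dec w.1 (by omega)
      have e4 := dec w.2 (by omega)
      simp only [Prod.mk.injEq] at hzw
      obtain ⟨g1, g2, g3⟩ := hzw
      have hlt : cru z.1 < cru z.2 := by
        by_contra hcon
        rw [not_lt] at hcon
        have : z.2 ≤ z.1 := by
          rw [e1, e2, ← hq]
          exact Nat.mul_le_mul_left _ (Nat.pow_le_pow_left hcon 3)
        have := hz'.2
        omega
      have hlt' : cru w.1 < cru w.2 := by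
        by_contra hcon
        rw [not_lt] at hcon
        have : w.2 ≤ w.1 := by
          rw [e3, e4, ← hq']
          exact Nat.mul_le_mul_left _ (Nat.pow_le_pow_left hcon 3)
        have := hw'.2
        omega
      have g4 : cru z.2 = cru w.2 := by omega
      refine Prod.ext ?_ ?_
      · rw [e1, e3, g1, g2]
      · rw [e2, e4, ← hq, ← hq', g1, g4]
  have h3 : (prs M H).card ≤ H + ((trip H).card + (trip H).card) := by
    refine (card_le_card h1).trans ((card_union_le _ _).trans (add_le_add ?_ ((card_union_le _ _).trans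
      (add_le_add h2 (card_image_le.trans h2)))))
    refine card_image_le.trans ?_
    rw [Nat.card_Ioc]; omega
  have h4 := trip_card H hH
  have h5 : (1 : ℝ) ≤ (1 + Real.log H) ^ 2 := by
    have : 0 ≤ Real.log H := Real.log_natCast_nonneg H
    nlinarith
  have h6 : ((prs M H).card : ℝ) ≤ H + ((trip H).card + (trip H).card) := by exact_mod_cast h3
  have h7 : (0 : ℝ) ≤ H := Nat.cast_nonneg _
  nlinarith

end Pool.Agent.U585.CM
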