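import Pool.Agent.U585.CM.Ar

/-!
# Large deviations and the almost sure bound
-/

set_option autoImplicit false
set_option linter.unusedSectionVars false

open MeasureTheory Filter Topology ProbabilityTheory Finset

namespace Pool.Agent.U585.CM

open Pool.Agent.U585.GC (PN mem_PN small_pow log_pow)

open Classical in
/-- the number of the integers of an interval in a given class -/
noncomputable def co (M H : ℕ) (T U : Finset ℕ) : ℂ :=
  ∑ n ∈ Ioc M (M + H), if c1 n = T ∧ c2 n = U then 1 else 0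

lemma c_disj (n : ℕ) : Disjoint (c1 n) (c2 n) := by
  rw [Finset.disjoint_left]
  intro p h1 h2
  have h3 := (mem_filter.1 h1).2
  have h4 := (mem_filter.1 h2).2
  omega

lemma co_disj (M H : ℕ) (T U : Finset ℕ) (h : ¬ Disjoint T U) : co M H T U = 0 := by
  unfold co
  refine sum_eq_zero fun n _ => ?_
  rw [if_neg]
  rintro ⟨h1, h2⟩
  exact h (h1 ▸ h2 ▸ c_disj n)

lemma c_mem {N n : ℕ} (hn0 : n ≠ 0) (hn : n ≤ N) : c1 n ∈ (PN N).powerset ∧ c2 n ∈ (PN N).powerset := by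
  have h : ∀ p ∈ n.primeFactors, p ∈ PN N := fun p hp =>
    mem_PN.2 ⟨Nat.prime_of_mem_primeFactors hp, (Nat.le_of_dvd (Nat.pos_of_ne_zero hn0) (Nat.dvd_of_mem_primeFactors hp)).trans hn⟩
  rw [mem_powerset, mem_powerset]
  exact ⟨fun p hp => h p (mem_filter.1 hp).1, fun p hp => h p (mem_filter.1 hp).1⟩

lemma pick {N n : ℕ} (hn0 : n ≠ 0) (hn : n ≤ N) {E : Type} [AddCommMonoid E] (g : Finset ℕ → Finset ℕ → E)
    [∀ T U, Decidable (c1 n = T ∧ c2 n = U)] :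
    ∑ T ∈ (PN N).powerset, ∑ U ∈ (PN N).powerset, (if c1 n = T ∧ c2 n = U then g T U else 0) = g (c1 n) (c2 n) := by
  have hm := c_mem hn0 hn
  rw [sum_eq_single_of_mem (c1 n) hm.1 ?_, sum_eq_single_of_mem (c2 n) hm.2 ?_, if_pos ⟨rfl, rfl⟩]
  · intro U _ hU
    rw [if_neg]
    exact fun h => hU h.2.symm
  · intro T _ hT
    refine sum_eq_zero fun U _ => ?_
    rw [if_neg]
    exact fun h => hT h.1.symm

lemma sum_poly {s : ℕ → ℂ} (hs : ∀ p, s p ^ 3 = 1) {M H N : ℕ} (hN : M + H ≤ N) :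
    ∑ n ∈ Ioc M (M + H), cm s n = poly (PN N) (co M H) s := by
  classical
  unfold poly co
  have e1 : ∀ T U : Finset ℕ, (∑ n ∈ Ioc M (M + H), if c1 n = T ∧ c2 n = U then (1 : ℂ) else 0) *
      ((∏ p ∈ T, s p) * ∏ p ∈ U, (starRingEnd ℂ) (s p)) =
      ∑ n ∈ Ioc M (M + H), if c1 n = T ∧ c2 n = U then ((∏ p ∈ T, s p) * ∏ p ∈ U, (starRingEnd ℂ) (s p)) else 0 := by
    intro T U
    rw [sum_mul]
    refine sum_congr rfl fun n _ => ?_
    split_ifs <;> simp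
  simp_rw [e1]
  have e2 : ∀ T ∈ (PN N).powerset, ∑ U ∈ (PN N).powerset, ∑ n ∈ Ioc M (M + H),
      (if c1 n = T ∧ c2 n = U then ((∏ p ∈ T, s p) * ∏ p ∈ U, (starRingEnd ℂ) (s p)) else 0) =
      ∑ n ∈ Ioc M (M + H), ∑ U ∈ (PN N).powerset,
      (if c1 n = T ∧ c2 n = U then ((∏ p ∈ T, s p) * ∏ p ∈ U, (starRingEnd ℂ) (s p)) else 0) := fun T _ => sum_comm
  rw [sum_congr rfl e2, sum_comm]
  refine sum_congr rfl fun n hn => ?_
  have hn2 := mem_Ioc.1 hn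
  rw [pick (by omega) (by omega) fun T U => (∏ p ∈ T, s p) * ∏ p ∈ U, (starRingEnd ℂ) (s p)]
  exact cm_eq hs n

/-- the sum of the squares of the numbers in the classes -/
lemma co_sq {M H N : ℕ} (hN : M + H ≤ N) :
    ∑ T ∈ (PN N).powerset, ∑ U ∈ (PN N).powerset, ‖co M H T U‖ ^ 2 = ((prs M H).card : ℝ) := by
  classical
  have e1 : ∀ T U : Finset ℕ, ‖co M H T U‖ ^ 2 = ∑ n ∈ Ioc M (M + H), if c1 n = T ∧ c2 n = U then
      (∑ m ∈ Ioc M (M + H), if c1 m = T ∧ c2 m = U then (1 : ℝ) else 0) else 0 := by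
    intro T U
    have h1 : co M H T U = ((∑ m ∈ Ioc M (M + H), if c1 m = T ∧ c2 m = U then (1 : ℝ) else 0 : ℝ) : ℂ) := by
      unfold co
      push_cast
      refine sum_congr rfl fun n _ => ?_
      split_ifs <;> simp
    rw [h1, Complex.norm_real, Real.norm_eq_abs, sq_abs, sq, sum_mul]
    refine sum_congr rfl fun n _ => ?_
    split_ifs <;> simp
  simp_rw [e1]
  have e2 : ∀ T ∈ (PN N).powerset, ∑ U ∈ (PN N).powerset, ∑ n ∈ Ioc M (M + H),
      (if c1 n = T ∧ c2 n = U then (∑ m ∈ Ioc M (M + H), if c1 m = T ∧ c2 m = U then (1 : ℝ) else 0) else 0) =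
      ∑ n ∈ Ioc M (M + H), ∑ U ∈ (PN N).powerset,
      (if c1 n = T ∧ c2 n = U then (∑ m ∈ Ioc M (M + H), if c1 m = T ∧ c2 m = U then (1 : ℝ) else 0) else 0) :=
    fun T _ => sum_comm
  rw [sum_congr rfl e2, sum_comm]
  have e3 : ∀ n ∈ Ioc M (M + H), ∑ T ∈ (PN N).powerset, ∑ U ∈ (PN N).powerset,
      (if c1 n = T ∧ c2 n = U then (∑ m ∈ Ioc M (M + H), if c1 m = T ∧ c2 m = U then (1 : ℝ) else 0) else 0) =
      ∑ m ∈ Ioc M (M + H), if c1 m = c1 n ∧ c2 m = c2 n then (1 : ℝ) else 0 := by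
    intro n hn
    have hn2 := mem_Ioc.1 hn
    exact pick (by omega) (by omega) fun T U => ∑ m ∈ Ioc M (M + H), if c1 m = T ∧ c2 m = U then (1 : ℝ) else 0
  rw [sum_congr rfl e3]
  unfold prs
  rw [card_filter]
  push_cast
  rw [sum_product]
  refine sum_congr rfl fun n _ => sum_congr rfl fun m _ => ?_
  by_cases h : c1 n = c1 m ∧ c2 n = c2 m
  · rw [if_pos h, if_pos ⟨h.1.symm, h.2.symm⟩]
  · rw [if_neg h, if_neg fun h' => h ⟨h'.1.symm, h'.2.symm⟩]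

/-- the weighted sum of squares -/
lemma co_wt (D δ : ℝ) (hD : 1 ≤ D) (hδ : 0 < δ) : ∃ K : ℝ, 0 < K ∧ ∀ M H N : ℕ, 1 ≤ H → M + H ≤ N →
    ∑ T ∈ (PN N).powerset, ∑ U ∈ (PN N).powerset, D ^ (T.card + U.card) * ‖co M H T U‖ ^ 2 ≤
      K * (N : ℝ) ^ δ * H := by
  classical
  obtain ⟨K1, hK1, hsm⟩ := small_pow D (δ / 2) hD (by linarith)
  have hK10 : 0 < K1 := by linarith
  refine ⟨K1 * (3 * (1 + 1 / (δ / 4)) ^ 2), by positivity, fun M H N hH hN => ?_⟩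
  have hN1 : (1 : ℝ) ≤ N := by exact_mod_cast (by omega : 1 ≤ N)
  have hN0 : (0 : ℝ) < N := by linarith
  have h1 : ∀ T ∈ (PN N).powerset, ∀ U ∈ (PN N).powerset, D ^ (T.card + U.card) * ‖co M H T U‖ ^ 2 ≤
      K1 * (N : ℝ) ^ (δ / 2) * ‖co M H T U‖ ^ 2 := by
    intro T _ U _
    by_cases h : ∃ n ∈ Ioc M (M + H), c1 n = T ∧ c2 n = U
    · obtain ⟨n, hn, hT, hU⟩ := h
      refine mul_le_mul_of_nonneg_right ?_ (sq_nonneg _)
      have hn2 := mem_Ioc.1 hn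
      have hdis := c_disj n
      rw [← hT, ← hU, ← card_union_of_disjoint hdis]
      have hsub : c1 n ∪ c2 n ⊆ n.primeFactors := union_subset (filter_subset _ _) (filter_subset _ _)
      refine (hsm (c1 n ∪ c2 n) fun p hp => Nat.prime_of_mem_primeFactors (hsub hp)).trans ?_
      refine mul_le_mul_of_nonneg_left (Real.rpow_le_rpow (Nat.cast_nonneg _) ?_ (by linarith)) hK10.le
      have h2 : ∏ p ∈ c1 n ∪ c2 n, p ≤ ∏ p ∈ n.primeFactors, p :=
        prod_le_prod_of_subset_of_one_le' hsub fun p hp _ => (Nat.prime_of_mem_primeFactors hp).one_lt.le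
      have h3 : ∏ p ∈ n.primeFactors, p ≤ n := Nat.le_of_dvd (by omega) (Nat.prod_primeFactors_dvd n)
      exact_mod_cast h2.trans (h3.trans (by omega))
    · have h0 : co M H T U = 0 := by
        unfold co
        refine sum_eq_zero fun n hn => ?_
        rw [if_neg fun h' => h ⟨n, hn, h'⟩]
      rw [h0]; simp
  calc ∑ T ∈ (PN N).powerset, ∑ U ∈ (PN N).powerset, D ^ (T.card + U.card) * ‖co M H T U‖ ^ 2
      ≤ ∑ T ∈ (PN N).powerset, ∑ U ∈ (PN N).powerset, K1 * (N : ℝ) ^ (δ / 2) * ‖co M H T U‖ ^ 2 :=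
        sum_le_sum fun T hT => sum_le_sum fun U hU => h1 T hT U hU
    _ = K1 * (N : ℝ) ^ (δ / 2) * ((prs M H).card : ℝ) := by
        rw [← co_sq hN, mul_sum]
        refine sum_congr rfl fun T _ => ?_
        rw [mul_sum]
    _ ≤ K1 * (N : ℝ) ^ (δ / 2) * (3 * (H * ((1 + 1 / (δ / 4)) * (N : ℝ) ^ (δ / 4)) ^ 2)) := by
        refine mul_le_mul_of_nonneg_left ((prs_card M H hH).trans ?_) (by positivity)
        have hH1 : (1 : ℝ) ≤ H := by exact_mod_cast hH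
        have hHN : (H : ℝ) ≤ N := by exact_mod_cast (by omega : H ≤ N)
        have h4 : 1 + Real.log H ≤ (1 + 1 / (δ / 4)) * (N : ℝ) ^ (δ / 4) := by
          refine (log_pow (δ / 4) (by linarith) hH1).trans ?_
          refine mul_le_mul_of_nonneg_left (Real.rpow_le_rpow (by linarith) hHN (by linarith)) (by positivity)
        have h5 : 0 ≤ Real.log H := Real.log_nonneg hH1
        have h6 := pow_le_pow_left₀ (by linarith : 0 ≤ 1 + Real.log H) h4 2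
        have h7 := mul_le_mul_of_nonneg_left h6 (by linarith : (0 : ℝ) ≤ H)
        linarith
    _ = K1 * (3 * (1 + 1 / (δ / 4)) ^ 2) * ((N : ℝ) ^ (δ / 2) * ((N : ℝ) ^ (δ / 4)) ^ 2) * H := by ring
    _ = K1 * (3 * (1 + 1 / (δ / 4)) ^ 2) * (N : ℝ) ^ δ * H := by
        congr 2
        rw [← Real.rpow_natCast ((N : ℝ) ^ (δ / 4)), ← Real.rpow_mul hN0.le, ← Real.rpow_add hN0]
        congr 1
        push_cast
        ring

variable {Ω : Type} [mΩ : MeasurableSpace Ω] {P : Measure Ω} [IsProbabilityMeasure P]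
  {f : ℕ → Ω → ℂ}

/-- large deviations of the sum over an interval -/
theorem dev (h : Cubes P f) (ε : ℝ) (hε : 0 < ε) (m : ℕ) : ∃ K : ℝ, 0 < K ∧
    ∀ M H N : ℕ, 1 ≤ H → M + H ≤ N →
      P.real {ω | (N : ℝ) ^ ε * √H < ‖∑ n ∈ Ioc M (M + H), cm (fun p => f p ω) n‖} ≤ K / (N : ℝ) ^ m := by
  obtain ⟨k, hk⟩ := exists_nat_gt (m / ε)
  set k' := k + 1 with hk'
  have hk1 : 1 ≤ k' := by omega
  have hkm : (m : ℝ) ≤ ε * k' := by
    rw [div_lt_iff₀ hε] at hk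
    rw [hk']
    push_cast
    nlinarith
  obtain ⟨K, hK, hb⟩ := co_wt (Dk k') ε (Dk_ge k') hε
  refine ⟨K ^ k', by positivity, fun M H N hH hN => ?_⟩
  have hN1 : (1 : ℝ) ≤ N := by exact_mod_cast (by omega : 1 ≤ N)
  have hN0 : (0 : ℝ) < N := by linarith
  have hH0 : (0 : ℝ) < H := by exact_mod_cast hH
  have e0 : ∀ ω, ∑ n ∈ Ioc M (M + H), cm (fun p => f p ω) n = poly (PN N) (co M H) (fun p => f p ω) :=
    fun ω => sum_poly (fun p => h.val p ω) hN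
  simp_rw [e0]
  set Y : Ω → ℂ := fun ω => poly (PN N) (co M H) (fun p => f p ω) with hY
  have h1 : ∫ ω, ‖Y ω‖ ^ (2 * k') ∂P ≤ (K * (N : ℝ) ^ ε * H) ^ k' := by
    refine (hyper h k' hk1 (PN N) (co M H) (co_disj M H)).trans ?_
    refine pow_le_pow_left₀ ?_ (hb M H N hH hN) k'
    have := Dk_ge k'
    exact Finset.sum_nonneg fun T _ => Finset.sum_nonneg fun U _ => by positivity
  set lam := ((N : ℝ) ^ ε * √H) ^ (2 * k') with hlam
  have hlam0 : 0 < lam := by positivity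
  have hlam1 : lam = ((N : ℝ) ^ ε * (N : ℝ) ^ ε * H) ^ k' := by
    rw [hlam, pow_mul]
    congr 1
    rw [mul_pow, Real.sq_sqrt hH0.le]
    ring
  have h2 := mul_meas_ge_le_integral_of_nonneg (μ := P) (f := fun ω => ‖Y ω‖ ^ (2 * k'))
    (ae_of_all _ fun ω => by
      simp only [Pi.zero_apply]
      positivity) (poly_pow_int h _ _ _) lam
  have h3 : P.real {ω | (N : ℝ) ^ ε * √H < ‖Y ω‖} ≤ P.real {ω | lam ≤ ‖Y ω‖ ^ (2 * k')} := by
    refine measureReal_mono ?_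
    intro ω hω
    rw [Set.mem_ofPred_eq] at hω ⊢
    exact pow_le_pow_left₀ (by positivity) hω.le _
  have h4 : P.real {ω | lam ≤ ‖Y ω‖ ^ (2 * k')} ≤ (K * (N : ℝ) ^ ε * H) ^ k' / lam := by
    rw [le_div_iff₀ hlam0, mul_comm]
    exact h2.trans h1
  refine h3.trans (h4.trans ?_)
  rw [hlam1, ← div_pow]
  have h5 : K * (N : ℝ) ^ ε * H / ((N : ℝ) ^ ε * (N : ℝ) ^ ε * H) = K / (N : ℝ) ^ ε := by
    have : (N : ℝ) ^ ε ≠ 0 := (Real.rpow_pos_of_pos hN0 ε).ne'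
    field_simp
  rw [h5, div_pow]
  refine div_le_div_of_nonneg_left (by positivity) (by positivity) ?_
  rw [← Real.rpow_natCast ((N : ℝ) ^ ε) k', ← Real.rpow_mul hN0.le, ← Real.rpow_natCast (N : ℝ) m]
  exact Real.rpow_le_rpow_of_exponent_le hN1 hkm

lemma cm_nrm {s : ℕ → ℂ} (hs : ∀ p, s p ^ 3 = 1) (n : ℕ) : ‖cm s n‖ = 1 := by
  unfold cm
  rw [norm_prod]
  refine prod_eq_one fun p _ => ?_
  rw [norm_pow, nrm (hs p), one_pow]

open Classical in
/-- the intervals up to `N` -/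
noncomputable def win (N : ℕ) : Finset (ℕ × ℕ) :=
  ((range (N + 1)) ×ˢ (range (N + 1))).filter (fun z => 1 ≤ z.2 ∧ z.1 + z.2 ≤ N)

theorem ev_small (h : Cubes P f) (ε : ℝ) (hε : 0 < ε) :
    ∀ᵐ ω ∂P, ∀ᶠ N : ℕ in atTop, ∀ z ∈ win N,
      ‖∑ n ∈ Ioc z.1 (z.1 + z.2), cm (fun p => f p ω) n‖ ≤ (N : ℝ) ^ ε * √z.2 := by
  classical
  obtain ⟨K, hK, hdev⟩ := dev h ε hε 4
  set E : ℕ → ℕ × ℕ → Set Ω := fun N z => {ω | (N : ℝ) ^ ε * √z.2 <
    ‖∑ n ∈ Ioc z.1 (z.1 + z.2), cm (fun p => f p ω) n‖} with hE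
  set bad : ℕ → Set Ω := fun N => ⋃ z ∈ win N, E N z with hbad
  have hb : ∀ N : ℕ, 1 ≤ N → P (bad N) ≤ ENNReal.ofReal (4 * K * (1 / (N : ℝ) ^ 2)) := by
    intro N hN
    have hN0 : (0 : ℝ) < N := by exact_mod_cast hN
    have hN1 : (1 : ℝ) ≤ N := by exact_mod_cast hN
    have h1 : P (bad N) ≤ ∑ z ∈ win N, P (E N z) := measure_biUnion_finset_le _ _
    have h2 : ∀ z ∈ win N, P (E N z) ≤ ENNReal.ofReal (K / (N : ℝ) ^ 4) := by
      intro z hz
      have hz2 := (mem_filter.1 hz).2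
      rw [← ofReal_measureReal (measure_ne_top P _)]
      exact ENNReal.ofReal_le_ofReal (hdev z.1 z.2 N hz2.1 hz2.2)
    refine h1.trans ((sum_le_sum h2).trans ?_)
    rw [sum_const, nsmul_eq_mul, ← ENNReal.ofReal_natCast, ← ENNReal.ofReal_mul (Nat.cast_nonneg _)]
    refine ENNReal.ofReal_le_ofReal ?_
    have h3 : ((win N).card : ℝ) ≤ 4 * (N : ℝ) ^ 2 := by
      have h4 : (win N).card ≤ (N + 1) * (N + 1) := by
        refine (card_le_card (filter_subset _ _)).trans ?_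
        rw [card_product, card_range]
      have h5 : ((win N).card : ℝ) ≤ ((N : ℝ) + 1) * (N + 1) := by exact_mod_cast h4
      nlinarith
    calc ((win N).card : ℝ) * (K / (N : ℝ) ^ 4) ≤ 4 * (N : ℝ) ^ 2 * (K / (N : ℝ) ^ 4) :=
          mul_le_mul_of_nonneg_right h3 (by positivity)
      _ = _ := by field_simp
  have hsum : ∑' N, P (bad (N + 1)) ≠ ⊤ := by
    have hs : Summable fun N : ℕ => 4 * K * (1 / ((N + 1 : ℕ) : ℝ) ^ 2) :=
      ((summable_nat_add_iff 1).2 (Real.summable_one_div_nat_pow.2 (by norm_num))).mul_left _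
    refine ne_top_of_le_ne_top hs.tsum_ofReal_ne_top (ENNReal.tsum_le_tsum fun N => ?_)
    exact hb (N + 1) (by omega)
  filter_upwards [ae_eventually_notMem hsum] with ω hω
  rw [eventually_atTop] at hω ⊢
  obtain ⟨a, ha⟩ := hω
  refine ⟨a + 1, fun N hN z hz => ?_⟩
  have h1 := ha (N - 1) (by omega)
  rw [Nat.sub_add_cancel (by omega)] at h1
  by_contra h2
  rw [not_le] at h2
  exact h1 (Set.mem_biUnion hz h2)

/-- almost surely square root cancellation over all intervals -/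
theorem main (h : Cubes P f) : ∀ᵐ ω ∂P, ∀ ε : ℝ, 0 < ε → ∃ C : ℝ, 0 < C ∧ ∀ N M H : ℕ, M + H ≤ N →
    ‖∑ n ∈ Ioc M (M + H), cm (fun p => f p ω) n‖ ≤ C * (N : ℝ) ^ ε * √H := by
  have h1 : ∀ᵐ ω ∂P, ∀ j : ℕ, ∀ᶠ N : ℕ in atTop, ∀ z ∈ win N,
      ‖∑ n ∈ Ioc z.1 (z.1 + z.2), cm (fun p => f p ω) n‖ ≤ (N : ℝ) ^ (1 / ((j : ℝ) + 1)) * √z.2 :=
    ae_all_iff.2 fun j => ev_small h _ (by positivity)
  filter_upwards [h1] with ω hω ε hε
  obtain ⟨j, hj⟩ := exists_nat_gt (1 / ε)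
  have hj' : 1 / ((j : ℝ) + 1) ≤ ε := by
    rw [div_lt_iff₀ hε] at hj
    rw [div_le_iff₀ (by positivity)]
    nlinarith
  obtain ⟨N₀, hN₀⟩ := eventually_atTop.1 (hω j)
  refine ⟨1 + √N₀, by positivity, fun N M H hMH => ?_⟩
  rcases Nat.eq_zero_or_pos H with hH | hH
  · rw [hH]; simp
  have hN1 : (1 : ℝ) ≤ N := by exact_mod_cast (by omega : 1 ≤ N)
  have hS : 0 ≤ √(H : ℝ) := Real.sqrt_nonneg _
  rcases le_or_gt N₀ N with h2 | h2
  · have hz : (M, H) ∈ win N := by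
      unfold win
      rw [mem_filter, mem_product, mem_range, mem_range]
      exact ⟨⟨by omega, by omega⟩, hH, hMH⟩
    refine (hN₀ N h2 (M, H) hz).trans (mul_le_mul_of_nonneg_right ?_ hS)
    have h3 := Real.rpow_le_rpow_of_exponent_le hN1 hj'
    have h4 : 0 ≤ (N : ℝ) ^ ε := by positivity
    nlinarith [Real.sqrt_nonneg (N₀ : ℝ)]
  · have h3 : ‖∑ n ∈ Ioc M (M + H), cm (fun p => f p ω) n‖ ≤ H := by
      refine (norm_sum_le _ _).trans ?_
      rw [sum_congr rfl fun n _ => cm_nrm (fun p => h.val p ω) n]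
      simp
    refine h3.trans ?_
    have h4 : (H : ℝ) = √H * √H := (Real.mul_self_sqrt (Nat.cast_nonneg _)).symm
    have h5 : √(H : ℝ) ≤ √(N₀ : ℝ) := Real.sqrt_le_sqrt (by exact_mod_cast (by omega : H ≤ N₀))
    have h6 : 1 ≤ (N : ℝ) ^ ε := Real.one_le_rpow hN1 hε.le
    calc (H : ℝ) = √H * √H := h4
      _ ≤ ((1 + √N₀) * (N : ℝ) ^ ε) * √H := by
        refine mul_le_mul_of_nonneg_right ?_ hS
        nlinarith [Real.sqrt_nonneg (N₀ : ℝ)]

end Pool.Agent.U585.CM
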