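import Pool.Agent.U585.GC.Hyp

/-!
# Hypercontractivity for polynomials in independent cube roots of unity
-/

set_option autoImplicit false
set_option linter.unusedSectionVars false

open MeasureTheory Filter Topology ProbabilityTheory Finset

namespace Pool.Agent.U585.CM

open Pool.Agent.U585.GC (pow_le_quad indep_int minkowski)

/-- the constant -/
noncomputable def Dk (k : ℕ) : ℝ := 2 * (1 + 8 * 3 ^ k)

lemma Dk_ge (k : ℕ) : 1 ≤ Dk k := by
  unfold Dk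
  have : (0 : ℝ) < 3 ^ k := by positivity
  linarith

/-- real form of the pointwise inequality: `t` is the square of the norm of `Y`, `r` the real part of the product -/
lemma real_step (k : ℕ) (hk : 1 ≤ k) {a t r β : ℝ} (ha : 0 ≤ a) (ht : 0 ≤ t) (htβ : t ≤ β) (hr : r ^ 2 ≤ a * t) :
    (a + 2 * r + t) ^ k ≤ (a + (1 + 8 * 3 ^ k) * β) ^ k + k * (a + β) ^ (k - 1) * (2 * r) := by
  have hβ : 0 ≤ β := ht.trans htβ
  obtain ⟨j, rfl⟩ : ∃ j, k = j + 1 := ⟨k - 1, by omega⟩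
  rw [Nat.add_sub_cancel]
  set s := a + β with hs
  have hs0 : 0 ≤ s := by positivity
  set d := 2 * r + (t - β) with hd
  have e1 : a + 2 * r + t = s + d := by rw [hs, hd]; ring
  have hr2 : |2 * r| ≤ a + t := by
    refine abs_le_of_sq_le_sq ?_ (by positivity)
    nlinarith [sq_nonneg (a - t)]
  have hds : |d| ≤ s := by
    have h1 := abs_le.1 hr2
    rw [abs_le]
    constructor <;> rw [hd, hs] <;> linarith [h1.1, h1.2]
  have h1 := pow_le_quad (j + 1) hs0 hds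
  rcases eq_or_lt_of_le hs0 with h0 | h0
  · have ha0 : a = 0 := by linarith
    have hβ0 : β = 0 := by linarith
    have ht0 : t = 0 := by linarith
    have hr0 : r = 0 := by
      have : r ^ 2 ≤ 0 := by rw [ha0, zero_mul] at hr; exact hr
      nlinarith [sq_nonneg r]
    rw [hr0, ha0, hβ0, ht0]
    simp
  · have hd2 : d ^ 2 ≤ 8 * s * β := by
      have h2 : (2 * r) ^ 2 ≤ 4 * (a * β) := by nlinarith
      have h3 : (t - β) ^ 2 ≤ β ^ 2 := by nlinarith
      have h4 : d ^ 2 ≤ 2 * (2 * r) ^ 2 + 2 * (t - β) ^ 2 := by rw [hd]; nlinarith [sq_nonneg (2 * r - (t - β))]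
      have h5 : 0 ≤ β ^ 2 := sq_nonneg β
      rw [hs]
      nlinarith
    have h3 : s ^ 2 * (s + d) ^ (j + 1) ≤
        s ^ 2 * ((s + 8 * 3 ^ (j + 1) * β) ^ (j + 1) + ((j + 1 : ℕ) : ℝ) * s ^ j * (2 * r)) := by
      refine h1.trans ?_
      have h4 : s ^ (j + 1) * (s ^ 2 + ((j + 1 : ℕ) : ℝ) * s * d + 3 ^ (j + 1) * d ^ 2) ≤
          s ^ (j + 1) * (s ^ 2 + ((j + 1 : ℕ) : ℝ) * s * (2 * r) + 3 ^ (j + 1) * (8 * s * β)) := by
        refine mul_le_mul_of_nonneg_left ?_ (by positivity)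
        have h5 : d ≤ 2 * r := by rw [hd]; linarith
        have h6 := mul_le_mul_of_nonneg_left h5 (by positivity : 0 ≤ ((j + 1 : ℕ) : ℝ) * s)
        have h7 := mul_le_mul_of_nonneg_left hd2 (by positivity : (0 : ℝ) ≤ 3 ^ (j + 1))
        linarith
      refine h4.trans ?_
      have h8 : s ^ (j + 1) + s ^ j * (8 * 3 ^ (j + 1) * β) ≤ (s + 8 * 3 ^ (j + 1) * β) ^ (j + 1) := by
        have h9 : s ^ j ≤ (s + 8 * 3 ^ (j + 1) * β) ^ j := by
          refine pow_le_pow_left₀ hs0 ?_ j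
          have : 0 ≤ 8 * 3 ^ (j + 1) * β := by positivity
          linarith
        have h10 : 0 ≤ s + 8 * 3 ^ (j + 1) * β := by positivity
        calc s ^ (j + 1) + s ^ j * (8 * 3 ^ (j + 1) * β) = s ^ j * (s + 8 * 3 ^ (j + 1) * β) := by ring
          _ ≤ (s + 8 * 3 ^ (j + 1) * β) ^ j * (s + 8 * 3 ^ (j + 1) * β) := mul_le_mul_of_nonneg_right h9 h10
          _ = _ := by ring
      have h11 := mul_le_mul_of_nonneg_left h8 (sq_nonneg s)
      calc s ^ (j + 1) * (s ^ 2 + ((j + 1 : ℕ) : ℝ) * s * (2 * r) + 3 ^ (j + 1) * (8 * s * β))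
          = s ^ 2 * (s ^ (j + 1) + s ^ j * (8 * 3 ^ (j + 1) * β)) + s ^ 2 * (((j + 1 : ℕ) : ℝ) * s ^ j * (2 * r)) := by ring
        _ ≤ s ^ 2 * (s + 8 * 3 ^ (j + 1) * β) ^ (j + 1) + s ^ 2 * (((j + 1 : ℕ) : ℝ) * s ^ j * (2 * r)) := by linarith
        _ = _ := by ring
    have h12 := le_of_mul_le_mul_left h3 (by positivity)
    rw [e1]
    have e2 : a + (1 + 8 * 3 ^ (j + 1)) * β = s + 8 * 3 ^ (j + 1) * β := by rw [hs]; ring
    rw [e2]
    exact h12

/-- the pointwise inequality -/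
lemma cube_step (k : ℕ) (hk : 1 ≤ k) (A B C X : ℂ) (hX : ‖X‖ = 1) :
    ‖A + X * B + (starRingEnd ℂ) X * C‖ ^ (2 * k) ≤
      (‖A‖ ^ 2 + (Dk k * ‖B‖ ^ 2 + Dk k * ‖C‖ ^ 2)) ^ k +
      (X.re * (2 * (k * (‖A‖ ^ 2 + 2 * (‖B‖ ^ 2 + ‖C‖ ^ 2)) ^ (k - 1)) * ((starRingEnd ℂ) A * (B + C)).re) +
       X.im * (2 * (k * (‖A‖ ^ 2 + 2 * (‖B‖ ^ 2 + ‖C‖ ^ 2)) ^ (k - 1)) * ((starRingEnd ℂ) A * (C - B)).im)) := by
  set Y := X * B + (starRingEnd ℂ) X * C with hY
  have hXc : ‖(starRingEnd ℂ) X‖ = 1 := by rw [RCLike.norm_conj, hX]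
  have hYn : ‖Y‖ ^ 2 ≤ 2 * (‖B‖ ^ 2 + ‖C‖ ^ 2) := by
    have h1 : ‖Y‖ ≤ ‖B‖ + ‖C‖ := by
      refine (norm_add_le _ _).trans ?_
      rw [norm_mul, norm_mul, hX, hXc, one_mul, one_mul]
    calc ‖Y‖ ^ 2 ≤ (‖B‖ + ‖C‖) ^ 2 := pow_le_pow_left₀ (norm_nonneg _) h1 2
      _ ≤ _ := by nlinarith [sq_nonneg (‖B‖ - ‖C‖)]
  set r := ((starRingEnd ℂ) A * Y).re with hr
  have hr2 : r ^ 2 ≤ ‖A‖ ^ 2 * ‖Y‖ ^ 2 := by
    have h1 : |r| ≤ ‖(starRingEnd ℂ) A * Y‖ := Complex.abs_re_le_norm _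
    rw [norm_mul, RCLike.norm_conj] at h1
    rw [← sq_abs, ← mul_pow]
    exact pow_le_pow_left₀ (abs_nonneg _) h1 2
  have h1 := real_step k hk (sq_nonneg ‖A‖) (sq_nonneg ‖Y‖) hYn hr2
  have e1 : ‖A + X * B + (starRingEnd ℂ) X * C‖ ^ (2 * k) = (‖A‖ ^ 2 + 2 * r + ‖Y‖ ^ 2) ^ k := by
    rw [pow_mul, add_assoc, ← hY]
    congr 1
    rw [← Complex.normSq_eq_norm_sq, ← Complex.normSq_eq_norm_sq, ← Complex.normSq_eq_norm_sq, Complex.normSq_add, hr]
    have : (A * (starRingEnd ℂ) Y).re = ((starRingEnd ℂ) A * Y).re := by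
      rw [← Complex.conj_re ((starRingEnd ℂ) A * Y), map_mul, Complex.conj_conj]
    rw [this]; ring
  have e2 : r = X.re * ((starRingEnd ℂ) A * (B + C)).re + X.im * ((starRingEnd ℂ) A * (C - B)).im := by
    rw [hr, hY]
    simp only [Complex.mul_re, Complex.mul_im, Complex.add_re, Complex.add_im, Complex.sub_re, Complex.sub_im,
      Complex.conj_re, Complex.conj_im]
    ring
  rw [e1]
  refine h1.trans (le_of_eq ?_)
  have e3 : ‖A‖ ^ 2 + (1 + 8 * 3 ^ k) * (2 * (‖B‖ ^ 2 + ‖C‖ ^ 2)) = ‖A‖ ^ 2 + (Dk k * ‖B‖ ^ 2 + Dk k * ‖C‖ ^ 2) := by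
    unfold Dk; ring
  rw [e3, e2]
  ring

variable {Ω : Type} [mΩ : MeasurableSpace Ω]

/-- independent cube roots of unity with mean zero (that is, each of the three with probability `1/3`) -/
structure Cubes (P : Measure Ω) (f : ℕ → Ω → ℂ) : Prop where
  meas : ∀ p, Measurable (f p)
  indep : iIndepFun f P
  val : ∀ p ω, f p ω ^ 3 = 1
  mean : ∀ p, ∫ ω, f p ω ∂P = 0

def Dep {E : Type} (S : Set ℕ) (Φ : (ℕ → ℂ) → E) : Prop :=
  ∀ g g' : ℕ → ℂ, (∀ p ∈ S, g p = g' p) → Φ g = Φ g'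

@[reducible] noncomputable def mS (f : ℕ → Ω → ℂ) (S : Set ℕ) : MeasurableSpace Ω :=
  ⨆ i ∈ S, MeasurableSpace.comap (f i) inferInstance

variable {P : Measure Ω} [IsProbabilityMeasure P] {f : ℕ → Ω → ℂ}

lemma nrm {z : ℂ} (h : z ^ 3 = 1) : ‖z‖ = 1 := by
  have h1 : ‖z‖ ^ 3 = 1 := by rw [← norm_pow, h, norm_one]
  exact (pow_eq_one_iff_of_nonneg (norm_nonneg _) (by norm_num)).1 h1

lemma mS_le (h : Cubes P f) (S : Set ℕ) : mS f S ≤ mΩ :=
  iSup₂_le fun i _ => (h.meas i).comap_le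

lemma dep_meas {S : Set ℕ} {E : Type} [MeasurableSpace E] {Φ : (ℕ → ℂ) → E} (hΦ : Measurable Φ)
    (d : Dep S Φ) : Measurable[mS f S] fun ω => Φ fun p => f p ω := by
  classical
  have h1 : (fun ω => Φ fun p => f p ω) = Φ ∘ fun ω p => if p ∈ S then f p ω else 0 := by
    funext ω
    refine d _ _ fun p hp => ?_
    exact (if_pos hp).symm
  rw [h1]
  refine @Measurable.comp Ω (ℕ → ℂ) E (mS f S) _ _ _ _ hΦ ?_
  refine @measurable_pi_lambda Ω ℕ (fun _ => ℂ) (mS f S) _ _ fun p => ?_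
  by_cases hp : p ∈ S
  · simp only [hp, if_true]
    have h2 : MeasurableSpace.comap (f p) inferInstance ≤ mS f S :=
      le_iSup₂ (f := fun i (_ : i ∈ S) => MeasurableSpace.comap (f i) inferInstance) p hp
    exact Measurable.mono (@comap_measurable Ω ℂ _ (f p)) h2 le_rfl
  · simp only [hp, if_false]
    exact @measurable_const ℂ Ω _ (mS f S) _

lemma indep_mS (h : Cubes P f) {S T : Set ℕ} (hST : Disjoint S T) :
    Indep (mS f S) (mS f T) P :=
  indep_iSup_of_disjoint (fun i => (h.meas i).comap_le) h.indep.iIndep hST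

lemma mean_re (h : Cubes P f) (p : ℕ) : ∫ ω, (f p ω).re ∂P = 0 ∧ ∫ ω, (f p ω).im ∂P = 0 := by
  have hi : Integrable (f p) P := by
    refine Integrable.mono' (g := fun _ => (1 : ℝ)) (integrable_const _) (h.meas p).aestronglyMeasurable
      (ae_of_all _ fun ω => ?_)
    rw [nrm (h.val p ω)]
  have h1 := integral_re hi
  have h2 := integral_im hi
  rw [h.mean] at h1 h2
  constructor
  · simpa using h1
  · simpa using h2

/-- the polynomial with the coefficients `a` -/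
noncomputable def poly (S : Finset ℕ) (a : Finset ℕ → Finset ℕ → ℂ) (s : ℕ → ℂ) : ℂ :=
  ∑ T ∈ S.powerset, ∑ U ∈ S.powerset, a T U * ((∏ p ∈ T, s p) * ∏ p ∈ U, (starRingEnd ℂ) (s p))

lemma poly_meas (S : Finset ℕ) (a : Finset ℕ → Finset ℕ → ℂ) : Measurable (poly S a) := by
  unfold poly
  refine Finset.measurable_sum _ fun T _ => Finset.measurable_sum _ fun U _ => Measurable.const_mul ?_ _
  refine Measurable.mul ?_ ?_
  · exact Finset.measurable_prod _ fun p _ => measurable_pi_apply p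
  · exact Finset.measurable_prod _ fun p _ => Complex.continuous_conj.measurable.comp (measurable_pi_apply p)

lemma poly_dep (S : Finset ℕ) (a : Finset ℕ → Finset ℕ → ℂ) : Dep (S : Set ℕ) (poly S a) := by
  intro g g' h
  unfold poly
  refine Finset.sum_congr rfl fun T hT => Finset.sum_congr rfl fun U hU => ?_
  rw [Finset.mem_powerset] at hT hU
  congr 1
  congr 1
  · exact Finset.prod_congr rfl fun p hp => h p (hT hp)
  · exact Finset.prod_congr rfl fun p hp => by rw [h p (hU hp)]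

lemma poly_bdd (S : Finset ℕ) (a : Finset ℕ → Finset ℕ → ℂ) {s : ℕ → ℂ} (hs : ∀ p, s p ^ 3 = 1) :
    ‖poly S a s‖ ≤ ∑ T ∈ S.powerset, ∑ U ∈ S.powerset, ‖a T U‖ := by
  unfold poly
  refine (norm_sum_le _ _).trans (Finset.sum_le_sum fun T _ => (norm_sum_le _ _).trans (Finset.sum_le_sum fun U _ => ?_))
  rw [norm_mul, norm_mul, norm_prod, norm_prod]
  have h1 : ∏ p ∈ T, ‖s p‖ = 1 := Finset.prod_eq_one fun p _ => nrm (hs p)
  have h2 : ∏ p ∈ U, ‖(starRingEnd ℂ) (s p)‖ = 1 := Finset.prod_eq_one fun p _ => by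
    rw [RCLike.norm_conj]; exact nrm (hs p)
  rw [h1, h2, mul_one, mul_one]

lemma poly_insert {S : Finset ℕ} {q : ℕ} (hq : q ∉ S) (a : Finset ℕ → Finset ℕ → ℂ)
    (ha : ∀ T U, ¬ Disjoint T U → a T U = 0) (s : ℕ → ℂ) :
    poly (insert q S) a s = poly S a s + s q * poly S (fun T U => a (insert q T) U) s +
      (starRingEnd ℂ) (s q) * poly S (fun T U => a T (insert q U)) s := by
  unfold poly
  rw [Finset.sum_powerset_insert hq, Finset.mul_sum, Finset.mul_sum]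
  simp_rw [Finset.sum_powerset_insert hq]
  rw [Finset.sum_add_distrib, Finset.sum_add_distrib]
  have e1 : ∑ T ∈ S.powerset, ∑ U ∈ S.powerset, a (insert q T) (insert q U) *
      ((∏ p ∈ insert q T, s p) * ∏ p ∈ insert q U, (starRingEnd ℂ) (s p)) = 0 := by
    refine Finset.sum_eq_zero fun T _ => Finset.sum_eq_zero fun U _ => ?_
    rw [ha _ _ (by
      rw [Finset.not_disjoint_iff]
      exact ⟨q, Finset.mem_insert_self _ _, Finset.mem_insert_self _ _⟩), zero_mul]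
  rw [e1, add_zero]
  have e2 : ∑ T ∈ S.powerset, ∑ U ∈ S.powerset, a (insert q T) U *
      ((∏ p ∈ insert q T, s p) * ∏ p ∈ U, (starRingEnd ℂ) (s p)) =
      ∑ T ∈ S.powerset, s q * ∑ U ∈ S.powerset, a (insert q T) U * ((∏ p ∈ T, s p) * ∏ p ∈ U, (starRingEnd ℂ) (s p)) := by
    refine Finset.sum_congr rfl fun T hT => ?_
    rw [Finset.mem_powerset] at hT
    rw [Finset.mul_sum]
    refine Finset.sum_congr rfl fun U _ => ?_
    rw [Finset.prod_insert fun h => hq (hT h)]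
    ring
  have e3 : ∑ T ∈ S.powerset, ∑ U ∈ S.powerset, a T (insert q U) *
      ((∏ p ∈ T, s p) * ∏ p ∈ insert q U, (starRingEnd ℂ) (s p)) =
      ∑ T ∈ S.powerset, (starRingEnd ℂ) (s q) * ∑ U ∈ S.powerset, a T (insert q U) *
        ((∏ p ∈ T, s p) * ∏ p ∈ U, (starRingEnd ℂ) (s p)) := by
    refine Finset.sum_congr rfl fun T _ => ?_
    rw [Finset.mul_sum]
    refine Finset.sum_congr rfl fun U hU => ?_
    rw [Finset.mem_powerset] at hU
    rw [Finset.prod_insert fun h => hq (hU h)]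
    ring
  rw [e2, e3]
  ring

end Pool.Agent.U585.CM
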