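import Pool.Agent.U585.CM.Hyp

/-!
# Hypercontractivity for polynomials in independent cube roots of unity: the theorem
-/

set_option autoImplicit false
set_option linter.unusedSectionVars false

open MeasureTheory Filter Topology ProbabilityTheory Finset

namespace Pool.Agent.U585.CM

open Pool.Agent.U585.GC (pow_le_quad indep_int minkowski)

variable {Ω : Type} [mΩ : MeasurableSpace Ω] {P : Measure Ω} [IsProbabilityMeasure P] {f : ℕ → Ω → ℂ}

lemma pm (h : Cubes P f) (S : Finset ℕ) (a : Finset ℕ → Finset ℕ → ℂ) :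
    Measurable fun ω => poly S a (fun p => f p ω) :=
  (poly_meas S a).comp (measurable_pi_lambda _ fun p => h.meas p)

/-- bounded measurable functions are integrable -/
lemma bdd_int {g : Ω → ℝ} (hg : Measurable g) (C : ℝ) (hC : ∀ ω, |g ω| ≤ C) : Integrable g P :=
  Integrable.mono' (g := fun _ => C) (integrable_const _) hg.aestronglyMeasurable
    (ae_of_all _ fun ω => by rw [Real.norm_eq_abs]; exact hC ω)

lemma poly_pow_int (h : Cubes P f) (S : Finset ℕ) (a : Finset ℕ → Finset ℕ → ℂ) (k : ℕ) :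
    Integrable (fun ω => ‖poly S a (fun p => f p ω)‖ ^ k) P := by
  refine bdd_int ((pm h S a).norm.pow_const k) ((∑ T ∈ S.powerset, ∑ U ∈ S.powerset, ‖a T U‖) ^ k) fun ω => ?_
  rw [abs_pow, abs_of_nonneg (norm_nonneg _)]
  exact pow_le_pow_left₀ (norm_nonneg _) (poly_bdd S a fun p => h.val p ω) k

/-- a product of a coordinate and a function of the other coordinates has mean zero -/
lemma zero_mean (h : Cubes P f) {S : Finset ℕ} {q : ℕ} (hq : q ∉ S) {φ : ℂ → ℝ} (hφ : Measurable φ)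
    (h0 : ∫ ω, φ (f q ω) ∂P = 0) {Φ : (ℕ → ℂ) → ℝ} (hΦ : Measurable Φ) (d : Dep (S : Set ℕ) Φ) :
    ∫ ω, φ (f q ω) * Φ (fun p => f p ω) ∂P = 0 := by
  have hdis : Disjoint (({q} : Set ℕ)) (S : Set ℕ) := by simpa using hq
  have m1 : Measurable fun g : ℕ → ℂ => φ (g q) := hφ.comp (measurable_pi_apply q)
  have d1 : Dep ({q} : Set ℕ) fun g : ℕ → ℂ => φ (g q) := fun g g' hg => by
    change φ (g q) = φ (g' q)
    rw [hg q rfl]
  have := indep_int (mS_le h _) (mS_le h _) (indep_mS h hdis) (dep_meas m1 d1) (dep_meas hΦ d)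
  rw [this, h0, zero_mul]

theorem hyper_pos (h : Cubes P f) (k : ℕ) (hk : 1 ≤ k) (S : Finset ℕ) :
    ∀ (a : Finset ℕ → Finset ℕ → ℂ) (b : Finset ℕ → Finset ℕ → ℝ), (∀ T U, ¬ Disjoint T U → a T U = 0) →
      (∀ T U, 0 < b T U) → (∀ T U, ‖a T U‖ ^ 2 ≤ b T U) →
      ∫ ω, ‖poly S a (fun p => f p ω)‖ ^ (2 * k) ∂P ≤
        (∑ T ∈ S.powerset, ∑ U ∈ S.powerset, Dk k ^ (T.card + U.card) * b T U) ^ k := by
  classical
  have hD := Dk_ge k
  have hD0 : 0 < Dk k := by linarith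
  induction S using Finset.induction_on with
  | empty =>
    intro a b _ hb hab
    simp only [poly, Finset.powerset_empty, Finset.sum_singleton, Finset.prod_empty, mul_one,
      Finset.card_empty, add_zero, pow_zero, one_mul, integral_const, probReal_univ, smul_eq_mul]
    rw [pow_mul]
    exact pow_le_pow_left₀ (sq_nonneg _) (hab ∅ ∅) k
  | insert q S hq ih =>
    intro a b ha hb hab
    set A : Ω → ℂ := fun ω => poly S a (fun p => f p ω) with hA
    set B : Ω → ℂ := fun ω => poly S (fun T U => a (insert q T) U) (fun p => f p ω) with hB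
    set C : Ω → ℂ := fun ω => poly S (fun T U => a T (insert q U)) (fun p => f p ω) with hC
    set α := ∑ T ∈ S.powerset, ∑ U ∈ S.powerset, Dk k ^ (T.card + U.card) * b T U with hα
    set β := ∑ T ∈ S.powerset, ∑ U ∈ S.powerset, Dk k ^ (T.card + U.card) * b (insert q T) U with hβ
    set γ := ∑ T ∈ S.powerset, ∑ U ∈ S.powerset, Dk k ^ (T.card + U.card) * b T (insert q U) with hγ
    have hne : S.powerset.Nonempty := ⟨∅, by simp⟩
    have hα0 : 0 < α := Finset.sum_pos (fun T _ => Finset.sum_pos (fun U _ => mul_pos (pow_pos hD0 _) (hb _ _)) hne) hne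
    have hβ0 : 0 < β := Finset.sum_pos (fun T _ => Finset.sum_pos (fun U _ => mul_pos (pow_pos hD0 _) (hb _ _)) hne) hne
    have hγ0 : 0 < γ := Finset.sum_pos (fun T _ => Finset.sum_pos (fun U _ => mul_pos (pow_pos hD0 _) (hb _ _)) hne) hne
    have hsum : α + (Dk k * β + Dk k * γ) ≤
        ∑ T ∈ (insert q S).powerset, ∑ U ∈ (insert q S).powerset, Dk k ^ (T.card + U.card) * b T U := by
      simp_rw [Finset.sum_powerset_insert hq]
      rw [Finset.sum_add_distrib, Finset.sum_add_distrib]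
      have e1 : ∑ T ∈ S.powerset, ∑ U ∈ S.powerset, Dk k ^ ((insert q T).card + U.card) * b (insert q T) U = Dk k * β := by
        rw [hβ, Finset.mul_sum]
        refine Finset.sum_congr rfl fun T hT => ?_
        rw [Finset.mem_powerset] at hT
        rw [Finset.mul_sum]
        refine Finset.sum_congr rfl fun U _ => ?_
        rw [Finset.card_insert_of_notMem fun h => hq (hT h)]
        ring
      have e2 : ∑ T ∈ S.powerset, ∑ U ∈ S.powerset, Dk k ^ (T.card + (insert q U).card) * b T (insert q U) = Dk k * γ := by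
        rw [hγ, Finset.mul_sum]
        refine Finset.sum_congr rfl fun T _ => ?_
        rw [Finset.mul_sum]
        refine Finset.sum_congr rfl fun U hU => ?_
        rw [Finset.mem_powerset] at hU
        rw [Finset.card_insert_of_notMem fun h => hq (hU h)]
        ring
      have e3 : 0 ≤ ∑ T ∈ S.powerset, ∑ U ∈ S.powerset, Dk k ^ ((insert q T).card + (insert q U).card) *
          b (insert q T) (insert q U) :=
        Finset.sum_nonneg fun T _ => Finset.sum_nonneg fun U _ => mul_nonneg (pow_nonneg hD0.le _) (hb _ _).le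
      rw [e1, e2]
      linarith
    have iA := ih a b ha hb hab
    have iB := ih (fun T U => a (insert q T) U) (fun T U => b (insert q T) U)
      (fun T U hTU => ha _ _ fun hd => hTU (hd.mono_left (Finset.subset_insert _ _))) (fun T U => hb _ _) (fun T U => hab _ _)
    have iC := ih (fun T U => a T (insert q U)) (fun T U => b T (insert q U))
      (fun T U hTU => ha _ _ fun hd => hTU (hd.mono_right (Finset.subset_insert _ _))) (fun T U => hb _ _) (fun T U => hab _ _)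
    have mA : Measurable A := pm h S a
    have mB : Measurable B := pm h S _
    have mC : Measurable C := pm h S _
    -- bounds
    obtain ⟨cA, hcA⟩ : ∃ c, ∀ ω, ‖A ω‖ ≤ c := ⟨_, fun ω => poly_bdd S a fun p => h.val p ω⟩
    obtain ⟨cB, hcB⟩ : ∃ c, ∀ ω, ‖B ω‖ ≤ c := ⟨_, fun ω => poly_bdd S _ fun p => h.val p ω⟩
    obtain ⟨cC, hcC⟩ : ∃ c, ∀ ω, ‖C ω‖ ≤ c := ⟨_, fun ω => poly_bdd S _ fun p => h.val p ω⟩
    have hcA0 : 0 ≤ cA := by
      by_contra hcon
      have hbad : ∀ ω : Ω, False := fun ω => hcon ((norm_nonneg _).trans (hcA ω))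
      have : IsEmpty Ω := ⟨hbad⟩
      have h1 : P Set.univ = 0 := by rw [Set.univ_eq_empty_iff.2 this]; simp
      rw [measure_univ] at h1
      exact one_ne_zero h1
    -- the linear terms
    set Φ₁ : (ℕ → ℂ) → ℝ := fun g => 2 * (k * (‖poly S a g‖ ^ 2 + 2 * (‖poly S (fun T U => a (insert q T) U) g‖ ^ 2 +
      ‖poly S (fun T U => a T (insert q U)) g‖ ^ 2)) ^ (k - 1)) * ((starRingEnd ℂ) (poly S a g) *
      (poly S (fun T U => a (insert q T) U) g + poly S (fun T U => a T (insert q U)) g)).re with hΦ₁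
    set Φ₂ : (ℕ → ℂ) → ℝ := fun g => 2 * (k * (‖poly S a g‖ ^ 2 + 2 * (‖poly S (fun T U => a (insert q T) U) g‖ ^ 2 +
      ‖poly S (fun T U => a T (insert q U)) g‖ ^ 2)) ^ (k - 1)) * ((starRingEnd ℂ) (poly S a g) *
      (poly S (fun T U => a T (insert q U)) g - poly S (fun T U => a (insert q T) U) g)).im with hΦ₂
    have p1 := poly_meas S a
    have p2 := poly_meas S (fun T U => a (insert q T) U)
    have p3 := poly_meas S (fun T U => a T (insert q U))
    have mW : Measurable fun g : ℕ → ℂ => 2 * ((k : ℝ) * (‖poly S a g‖ ^ 2 + 2 * (‖poly S (fun T U => a (insert q T) U) g‖ ^ 2 +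
      ‖poly S (fun T U => a T (insert q U)) g‖ ^ 2)) ^ (k - 1)) :=
      ((((p1.norm.pow_const 2).add (((p2.norm.pow_const 2).add (p3.norm.pow_const 2)).const_mul 2)).pow_const _).const_mul _).const_mul _
    have mc : Measurable fun g : ℕ → ℂ => (starRingEnd ℂ) (poly S a g) := Complex.continuous_conj.measurable.comp p1
    have m1 : Measurable Φ₁ := mW.mul (Complex.measurable_re.comp (mc.mul (p2.add p3)))
    have m2 : Measurable Φ₂ := mW.mul (Complex.measurable_im.comp (mc.mul (p3.sub p2)))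
    have d1 : Dep (S : Set ℕ) Φ₁ := by
      intro g g' hg
      simp only [hΦ₁]
      rw [poly_dep S a g g' hg, poly_dep S (fun T U => a (insert q T) U) g g' hg, poly_dep S (fun T U => a T (insert q U)) g g' hg]
    have d2 : Dep (S : Set ℕ) Φ₂ := by
      intro g g' hg
      simp only [hΦ₂]
      rw [poly_dep S a g g' hg, poly_dep S (fun T U => a (insert q T) U) g g' hg, poly_dep S (fun T U => a T (insert q U)) g g' hg]
    have z1 := zero_mean h hq Complex.measurable_re (mean_re h q).1 m1 d1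
    have z2 := zero_mean h hq Complex.measurable_im (mean_re h q).2 m2 d2
    have mf : Measurable fun ω => fun p => f p ω := measurable_pi_lambda _ fun p => h.meas p
    -- boundedness of the linear terms
    set cW : ℝ := 2 * (k * (cA ^ 2 + 2 * (cB ^ 2 + cC ^ 2)) ^ (k - 1)) * (cA * (cB + cC)) with hcW
    have hW : ∀ ω, 2 * ((k : ℝ) * (‖A ω‖ ^ 2 + 2 * (‖B ω‖ ^ 2 + ‖C ω‖ ^ 2)) ^ (k - 1)) ≤
        2 * (k * (cA ^ 2 + 2 * (cB ^ 2 + cC ^ 2)) ^ (k - 1)) := by
      intro ω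
      have h1 := pow_le_pow_left₀ (norm_nonneg (A ω)) (hcA ω) 2
      have h2 := pow_le_pow_left₀ (norm_nonneg (B ω)) (hcB ω) 2
      have h3 := pow_le_pow_left₀ (norm_nonneg (C ω)) (hcC ω) 2
      have h4 : (‖A ω‖ ^ 2 + 2 * (‖B ω‖ ^ 2 + ‖C ω‖ ^ 2)) ^ (k - 1) ≤ (cA ^ 2 + 2 * (cB ^ 2 + cC ^ 2)) ^ (k - 1) :=
        pow_le_pow_left₀ (by positivity) (by linarith) _
      have h5 := mul_le_mul_of_nonneg_left h4 (Nat.cast_nonneg (α := ℝ) k)
      linarith
    have bX : ∀ ω, |(f q ω).re| ≤ 1 ∧ |(f q ω).im| ≤ 1 := fun ω => by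
      have := nrm (h.val q ω)
      exact ⟨(Complex.abs_re_le_norm _).trans this.le, (Complex.abs_im_le_norm _).trans this.le⟩
    have b1 : ∀ ω, |(f q ω).re * Φ₁ (fun p => f p ω)| ≤ cW := by
      intro ω
      have hcB0 : 0 ≤ cB := (norm_nonneg _).trans (hcB ω)
      have hcC0 : 0 ≤ cC := (norm_nonneg _).trans (hcC ω)
      have h6 : |((starRingEnd ℂ) (A ω) * (B ω + C ω)).re| ≤ cA * (cB + cC) := by
        refine (Complex.abs_re_le_norm _).trans ?_
        rw [norm_mul, RCLike.norm_conj]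
        exact mul_le_mul (hcA ω) ((norm_add_le _ _).trans (add_le_add (hcB ω) (hcC ω))) (norm_nonneg _) hcA0
      have h7 : Φ₁ (fun p => f p ω) = 2 * ((k : ℝ) * (‖A ω‖ ^ 2 + 2 * (‖B ω‖ ^ 2 + ‖C ω‖ ^ 2)) ^ (k - 1)) *
        ((starRingEnd ℂ) (A ω) * (B ω + C ω)).re := rfl
      have h8 : 0 ≤ 2 * ((k : ℝ) * (‖A ω‖ ^ 2 + 2 * (‖B ω‖ ^ 2 + ‖C ω‖ ^ 2)) ^ (k - 1)) := by positivity
      rw [h7, abs_mul, abs_mul, abs_of_nonneg h8, hcW]
      calc |(f q ω).re| * (2 * ((k : ℝ) * (‖A ω‖ ^ 2 + 2 * (‖B ω‖ ^ 2 + ‖C ω‖ ^ 2)) ^ (k - 1)) *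
            |((starRingEnd ℂ) (A ω) * (B ω + C ω)).re|)
          ≤ 1 * (2 * (k * (cA ^ 2 + 2 * (cB ^ 2 + cC ^ 2)) ^ (k - 1)) * (cA * (cB + cC))) := by
            refine mul_le_mul (bX ω).1 (mul_le_mul (hW ω) h6 (abs_nonneg _) ?_) (by positivity) zero_le_one
            exact h8.trans (hW ω)
        _ = _ := one_mul _
    have b2 : ∀ ω, |(f q ω).im * Φ₂ (fun p => f p ω)| ≤ cW := by
      intro ω
      have hcB0 : 0 ≤ cB := (norm_nonneg _).trans (hcB ω)
      have hcC0 : 0 ≤ cC := (norm_nonneg _).trans (hcC ω)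
      have h6 : |((starRingEnd ℂ) (A ω) * (C ω - B ω)).im| ≤ cA * (cB + cC) := by
        refine (Complex.abs_im_le_norm _).trans ?_
        rw [norm_mul, RCLike.norm_conj]
        refine mul_le_mul (hcA ω) ((norm_sub_le _ _).trans ?_) (norm_nonneg _) hcA0
        rw [add_comm cB cC]
        exact add_le_add (hcC ω) (hcB ω)
      have h7 : Φ₂ (fun p => f p ω) = 2 * ((k : ℝ) * (‖A ω‖ ^ 2 + 2 * (‖B ω‖ ^ 2 + ‖C ω‖ ^ 2)) ^ (k - 1)) *
        ((starRingEnd ℂ) (A ω) * (C ω - B ω)).im := rfl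
      have h8 : 0 ≤ 2 * ((k : ℝ) * (‖A ω‖ ^ 2 + 2 * (‖B ω‖ ^ 2 + ‖C ω‖ ^ 2)) ^ (k - 1)) := by positivity
      rw [h7, abs_mul, abs_mul, abs_of_nonneg h8, hcW]
      calc |(f q ω).im| * (2 * ((k : ℝ) * (‖A ω‖ ^ 2 + 2 * (‖B ω‖ ^ 2 + ‖C ω‖ ^ 2)) ^ (k - 1)) *
            |((starRingEnd ℂ) (A ω) * (C ω - B ω)).im|)
          ≤ 1 * (2 * (k * (cA ^ 2 + 2 * (cB ^ 2 + cC ^ 2)) ^ (k - 1)) * (cA * (cB + cC))) := by
            refine mul_le_mul (bX ω).2 (mul_le_mul (hW ω) h6 (abs_nonneg _) ?_) (by positivity) zero_le_one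
            exact h8.trans (hW ω)
        _ = _ := one_mul _
    have i1 : Integrable (fun ω => (f q ω).re * Φ₁ (fun p => f p ω)) P :=
      bdd_int ((Complex.measurable_re.comp (h.meas q)).mul (m1.comp mf)) cW b1
    have i2 : Integrable (fun ω => (f q ω).im * Φ₂ (fun p => f p ω)) P :=
      bdd_int ((Complex.measurable_im.comp (h.meas q)).mul (m2.comp mf)) cW b2
    -- the pointwise inequality
    have key : ∀ ω, ‖poly (insert q S) a (fun p => f p ω)‖ ^ (2 * k) ≤
        (‖A ω‖ ^ 2 + (Dk k * ‖B ω‖ ^ 2 + Dk k * ‖C ω‖ ^ 2)) ^ k +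
          ((f q ω).re * Φ₁ (fun p => f p ω) + (f q ω).im * Φ₂ (fun p => f p ω)) := by
      intro ω
      rw [poly_insert hq a ha]
      exact cube_step k hk (A ω) (B ω) (C ω) (f q ω) (nrm (h.val q ω))
    have iMaj : Integrable (fun ω => (‖A ω‖ ^ 2 + (Dk k * ‖B ω‖ ^ 2 + Dk k * ‖C ω‖ ^ 2)) ^ k) P := by
      refine bdd_int ((((mA.norm.pow_const 2).add (((mB.norm.pow_const 2).const_mul _).add
        ((mC.norm.pow_const 2).const_mul _)))).pow_const k) ((cA ^ 2 + (Dk k * cB ^ 2 + Dk k * cC ^ 2)) ^ k) fun ω => ?_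
      have h1 := pow_le_pow_left₀ (norm_nonneg (A ω)) (hcA ω) 2
      have h2 := mul_le_mul_of_nonneg_left (pow_le_pow_left₀ (norm_nonneg (B ω)) (hcB ω) 2) hD0.le
      have h3 := mul_le_mul_of_nonneg_left (pow_le_pow_left₀ (norm_nonneg (C ω)) (hcC ω) 2) hD0.le
      rw [abs_of_nonneg (by positivity)]
      exact pow_le_pow_left₀ (by positivity) (by linarith) k
    have hle : ∫ ω, ‖poly (insert q S) a (fun p => f p ω)‖ ^ (2 * k) ∂P ≤
        ∫ ω, (‖A ω‖ ^ 2 + (Dk k * ‖B ω‖ ^ 2 + Dk k * ‖C ω‖ ^ 2)) ^ k ∂P := by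
      have i12 : Integrable (fun ω => (f q ω).re * Φ₁ (fun p => f p ω) + (f q ω).im * Φ₂ (fun p => f p ω)) P :=
        i1.add i2
      have h1 := integral_mono (poly_pow_int h (insert q S) a (2 * k)) (iMaj.add i12) key
      have h2 : ∫ ω, ((‖A ω‖ ^ 2 + (Dk k * ‖B ω‖ ^ 2 + Dk k * ‖C ω‖ ^ 2)) ^ k +
          ((f q ω).re * Φ₁ (fun p => f p ω) + (f q ω).im * Φ₂ (fun p => f p ω))) ∂P =
          ∫ ω, (‖A ω‖ ^ 2 + (Dk k * ‖B ω‖ ^ 2 + Dk k * ‖C ω‖ ^ 2)) ^ k ∂P := by
        rw [integral_add iMaj i12, integral_add i1 i2, z1, z2, add_zero, add_zero]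
      exact h1.trans (le_of_eq h2)
    refine hle.trans ?_
    have iU : Integrable (fun ω => (‖A ω‖ ^ 2) ^ k) P := by
      simp_rw [← pow_mul]; exact poly_pow_int h S a (2 * k)
    have iB0 : Integrable (fun ω => (‖B ω‖ ^ 2) ^ k) P := by
      simp_rw [← pow_mul]; exact poly_pow_int h S _ (2 * k)
    have iC0 : Integrable (fun ω => (‖C ω‖ ^ 2) ^ k) P := by
      simp_rw [← pow_mul]; exact poly_pow_int h S _ (2 * k)
    have iB1 : Integrable (fun ω => (Dk k * ‖B ω‖ ^ 2) ^ k) P := by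
      simp_rw [mul_pow _ _ k]; exact iB0.const_mul _
    have iC1 : Integrable (fun ω => (Dk k * ‖C ω‖ ^ 2) ^ k) P := by
      simp_rw [mul_pow _ _ k]; exact iC0.const_mul _
    have hmink1 := minkowski (U := fun ω => Dk k * ‖B ω‖ ^ 2) (V := fun ω => Dk k * ‖C ω‖ ^ 2) (k := k)
      (mul_pos hD0 hβ0) (mul_pos hD0 hγ0) (fun ω => by positivity) (fun ω => by positivity) iB1 iC1
      (by
        simp_rw [mul_pow _ _ k]
        rw [integral_const_mul]
        refine mul_le_mul_of_nonneg_left ?_ (by positivity)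
        simp_rw [← pow_mul]; exact iB)
      (by
        simp_rw [mul_pow _ _ k]
        rw [integral_const_mul]
        refine mul_le_mul_of_nonneg_left ?_ (by positivity)
        simp_rw [← pow_mul]; exact iC)
    have iV : Integrable (fun ω => (Dk k * ‖B ω‖ ^ 2 + Dk k * ‖C ω‖ ^ 2) ^ k) P := by
      refine bdd_int ((((mB.norm.pow_const 2).const_mul _).add
        ((mC.norm.pow_const 2).const_mul _)).pow_const k) ((Dk k * cB ^ 2 + Dk k * cC ^ 2) ^ k) fun ω => ?_
      have h2 := mul_le_mul_of_nonneg_left (pow_le_pow_left₀ (norm_nonneg (B ω)) (hcB ω) 2) hD0.le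
      have h3 := mul_le_mul_of_nonneg_left (pow_le_pow_left₀ (norm_nonneg (C ω)) (hcC ω) 2) hD0.le
      rw [abs_of_nonneg (by positivity)]
      exact pow_le_pow_left₀ (by positivity) (by linarith) k
    have hmink := minkowski (U := fun ω => ‖A ω‖ ^ 2) (V := fun ω => Dk k * ‖B ω‖ ^ 2 + Dk k * ‖C ω‖ ^ 2) (k := k)
      hα0 (by positivity : 0 < Dk k * β + Dk k * γ) (fun ω => sq_nonneg _) (fun ω => by positivity) iU iV
      (by simp_rw [← pow_mul]; exact iA) hmink1
    refine hmink.trans (pow_le_pow_left₀ (by positivity) hsum k)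

theorem hyper (h : Cubes P f) (k : ℕ) (hk : 1 ≤ k) (S : Finset ℕ) (a : Finset ℕ → Finset ℕ → ℂ)
    (ha : ∀ T U, ¬ Disjoint T U → a T U = 0) :
    ∫ ω, ‖poly S a (fun p => f p ω)‖ ^ (2 * k) ∂P ≤
      (∑ T ∈ S.powerset, ∑ U ∈ S.powerset, Dk k ^ (T.card + U.card) * ‖a T U‖ ^ 2) ^ k := by
  have h1 : ∀ η : ℝ, 0 < η → ∫ ω, ‖poly S a (fun p => f p ω)‖ ^ (2 * k) ∂P ≤
      (∑ T ∈ S.powerset, ∑ U ∈ S.powerset, Dk k ^ (T.card + U.card) * (‖a T U‖ ^ 2 + η)) ^ k := fun η hη =>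
    hyper_pos h k hk S a (fun T U => ‖a T U‖ ^ 2 + η) ha (fun T U => by positivity) (fun T U => by linarith)
  have h2 : Tendsto (fun η : ℝ => (∑ T ∈ S.powerset, ∑ U ∈ S.powerset, Dk k ^ (T.card + U.card) * (‖a T U‖ ^ 2 + η)) ^ k)
      (𝓝[>] 0) (𝓝 ((∑ T ∈ S.powerset, ∑ U ∈ S.powerset, Dk k ^ (T.card + U.card) * (‖a T U‖ ^ 2 + 0)) ^ k)) := by
    refine Tendsto.mono_left ?_ nhdsWithin_le_nhds
    refine Continuous.tendsto ?_ 0
    fun_prop
  simp only [add_zero] at h2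
  exact ge_of_tendsto h2 (eventually_mem_nhdsWithin.mono fun η hη => h1 η hη)

end Pool.Agent.U585.CM
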