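import Pool.Agent.U585.CM.Dev
import Mathlib.Probability.Independence.InfinitePi

/-!
# Sums over the integers coprime to a modulus; existence of the model
-/

set_option autoImplicit false
set_option linter.unusedSectionVars false

open MeasureTheory Filter Topology ProbabilityTheory Finset

namespace Pool.Agent.U585.CM

open Pool.Agent.U585.GC (small_pow)

lemma cm_mul (s : ℕ → ℂ) {m n : ℕ} (hm : m ≠ 0) (hn : n ≠ 0) : cm s (m * n) = cm s m * cm s n := by
  have e : ∀ k : ℕ, cm s k = k.factorization.prod fun p v => s p ^ v := fun k => by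
    unfold cm; rw [Finsupp.prod, Nat.support_factorization]
  rw [e, e, e, Nat.factorization_mul hm hn]
  exact Finsupp.prod_add_index' (fun _ => pow_zero _) fun p a b => pow_add _ _ _

/-- the sum over the multiples of `D` -/
lemma mult_sum {s : ℕ → ℂ} (M H D : ℕ) (hD : 1 ≤ D) :
    ∑ n ∈ (Ioc M (M + H)).filter (fun n => D ∣ n), cm s n =
      cm s D * ∑ b ∈ Ioc (M / D) ((M + H) / D), cm s b := by
  rw [mul_sum]
  refine (sum_nbij' (fun b => D * b) (fun n => n / D) ?_ ?_ ?_ ?_ ?_).symm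
  · intro b hb
    rw [mem_Ioc] at hb
    rw [mem_filter, mem_Ioc]
    refine ⟨⟨?_, ?_⟩, Dvd.intro _ rfl⟩
    · rw [Nat.div_lt_iff_lt_mul (by omega)] at hb
      rw [mul_comm]; exact hb.1
    · have := (Nat.le_div_iff_mul_le (by omega : 0 < D)).1 hb.2
      rw [mul_comm]; exact this
  · intro n hn
    rw [mem_filter, mem_Ioc] at hn
    obtain ⟨b, rfl⟩ := hn.2
    rw [Nat.mul_div_cancel_left _ (by omega : 0 < D), mem_Ioc, Nat.div_lt_iff_lt_mul (by omega),
      Nat.le_div_iff_mul_le (by omega : 0 < D), mul_comm b D]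
    exact hn.1
  · intro b _
    exact Nat.mul_div_cancel_left _ (by omega : 0 < D)
  · intro n hn
    rw [mem_filter] at hn
    exact Nat.mul_div_cancel' hn.2
  · intro b hb
    rw [mem_Ioc] at hb
    have hb0 : b ≠ 0 := Nat.ne_of_gt (lt_of_le_of_lt (Nat.zero_le _) hb.1)
    rw [cm_mul s (by omega) hb0]

/-- inclusion and exclusion -/
lemma incl_excl (r n : ℕ) (hr : r ≠ 0) : (if n.Coprime r then (1 : ℂ) else 0) =
    ∑ t ∈ r.primeFactors.powerset, (-1) ^ t.card * (if (∏ p ∈ t, p) ∣ n then (1 : ℂ) else 0) := by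
  classical
  have h1 : (if n.Coprime r then (1 : ℂ) else 0) = ∏ p ∈ r.primeFactors, ((-(if p ∣ n then (1 : ℂ) else 0)) + 1) := by
    split_ifs with h
    · symm
      refine prod_eq_one fun p hp => ?_
      rw [if_neg, neg_zero, zero_add]
      intro hpn
      have hpp := Nat.prime_of_mem_primeFactors hp
      have := Nat.dvd_gcd hpn (Nat.dvd_of_mem_primeFactors hp)
      rw [h] at this
      exact hpp.one_lt.ne' (Nat.dvd_one.1 this)
    · symm
      obtain ⟨p, hp, h2⟩ := Nat.Prime.not_coprime_iff_dvd.1 h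
      refine prod_eq_zero (Nat.mem_primeFactors.2 ⟨hp, h2.2, hr⟩) ?_
      rw [if_pos h2.1]; ring
  rw [h1, prod_add]
  refine sum_congr rfl fun t ht => ?_
  rw [prod_const_one, mul_one, prod_neg]
  congr 1
  rw [mem_powerset] at ht
  by_cases h : (∏ p ∈ t, p) ∣ n
  · rw [if_pos h]
    exact prod_eq_one fun p hp => if_pos ((dvd_prod_of_mem _ hp).trans h)
  · rw [if_neg h]
    by_contra hne
    apply h
    refine Finset.prod_primes_dvd n (fun p hp => (Nat.prime_of_mem_primeFactors (ht hp)).prime) fun p hp => ?_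
    by_contra hpn
    exact hne (prod_eq_zero hp (if_neg hpn))

/-- from all integers to the integers coprime to a modulus -/
lemma cop_bound {s : ℕ → ℂ} (hs : ∀ p, s p ^ 3 = 1) {B : ℝ} (hB : 0 ≤ B) (N : ℕ)
    (h : ∀ M H : ℕ, M + H ≤ N → ‖∑ n ∈ Ioc M (M + H), cm s n‖ ≤ B * √H) (r M H : ℕ) (hr : r ≠ 0) (hN : M + H ≤ N) :
    ‖∑ n ∈ (Ioc M (M + H)).filter (fun n => n.Coprime r), cm s n‖ ≤ 2 ^ r.primeFactors.card * (B * √H) := by
  classical
  have h1 : ∑ n ∈ (Ioc M (M + H)).filter (fun n => n.Coprime r), cm s n =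
      ∑ t ∈ r.primeFactors.powerset, (-1) ^ t.card * ∑ n ∈ (Ioc M (M + H)).filter (fun n => (∏ p ∈ t, p) ∣ n), cm s n := by
    rw [sum_filter]
    have e1 : ∀ n ∈ Ioc M (M + H), (if n.Coprime r then cm s n else 0) =
        ∑ t ∈ r.primeFactors.powerset, (-1) ^ t.card * (if (∏ p ∈ t, p) ∣ n then cm s n else 0) := by
      intro n _
      have e2 : (if n.Coprime r then cm s n else 0) = (if n.Coprime r then (1 : ℂ) else 0) * cm s n := by
        split_ifs <;> simp
      rw [e2, incl_excl r n hr, sum_mul]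
      refine sum_congr rfl fun t _ => ?_
      split_ifs <;> simp
    rw [sum_congr rfl e1, sum_comm]
    refine sum_congr rfl fun t _ => ?_
    rw [← mul_sum, sum_filter]
  rw [h1]
  refine (norm_sum_le _ _).trans ?_
  have h2 : ∀ t ∈ r.primeFactors.powerset, ‖(-1 : ℂ) ^ t.card * ∑ n ∈ (Ioc M (M + H)).filter (fun n => (∏ p ∈ t, p) ∣ n), cm s n‖ ≤
      B * √H := by
    intro t ht
    rw [mem_powerset] at ht
    set D := ∏ p ∈ t, p with hD
    have hD1 : 1 ≤ D := Nat.one_le_iff_ne_zero.2 (prod_ne_zero_iff.2 fun p hp => (Nat.prime_of_mem_primeFactors (ht hp)).ne_zero)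
    rw [norm_mul, norm_pow, norm_neg, norm_one, one_pow, one_mul, mult_sum M H D hD1, norm_mul, cm_nrm hs, one_mul]
    have h3 : M / D ≤ (M + H) / D := Nat.div_le_div_right (by omega)
    have h4 : (M + H) / D ≤ M / D + H := by
      calc (M + H) / D ≤ (M + H * D) / D := Nat.div_le_div_right (by nlinarith)
        _ = M / D + H := Nat.add_mul_div_right _ _ (by omega)
    have h5 : (M + H) / D ≤ N := (Nat.div_le_self _ _).trans hN
    have h6 := h (M / D) ((M + H) / D - M / D) (by omega)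
    rw [Nat.add_sub_cancel' h3] at h6
    refine h6.trans (mul_le_mul_of_nonneg_left (Real.sqrt_le_sqrt ?_) hB)
    exact_mod_cast (by omega : (M + H) / D - M / D ≤ H)
  refine (sum_le_sum h2).trans ?_
  rw [sum_const, card_powerset, nsmul_eq_mul]
  push_cast
  exact le_rfl

variable {Ω : Type} [mΩ : MeasurableSpace Ω] {P : Measure Ω} [IsProbabilityMeasure P]
  {f : ℕ → Ω → ℂ}

theorem main_mod (h : Cubes P f) : ∀ᵐ ω ∂P, ∀ ε : ℝ, 0 < ε → ∃ C : ℝ, 0 < C ∧ ∀ N r M H : ℕ, 1 ≤ r → M + H ≤ N →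
    ‖∑ n ∈ (Ioc M (M + H)).filter (fun n => n.Coprime r), cm (fun p => f p ω) n‖ ≤
      C * ((N : ℝ) ^ ε * (r : ℝ) ^ ε) * √H := by
  filter_upwards [main h] with ω hω ε hε
  obtain ⟨C, hC, h1⟩ := hω ε hε
  obtain ⟨K, hK, h2⟩ := small_pow 2 ε (by norm_num) hε
  have hK0 : 0 < K := by linarith
  refine ⟨K * C, by positivity, fun N r M H hr hN => ?_⟩
  have h3 := cop_bound (fun p => h.val p ω) (B := C * (N : ℝ) ^ ε) (by positivity) N
    (fun M H hMH => h1 N M H hMH) r M H (by omega) hN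
  refine h3.trans ?_
  have h4 : (2 : ℝ) ^ r.primeFactors.card ≤ K * (r : ℝ) ^ ε := by
    refine (h2 r.primeFactors fun p hp => Nat.prime_of_mem_primeFactors hp).trans ?_
    refine mul_le_mul_of_nonneg_left (Real.rpow_le_rpow (Nat.cast_nonneg _) ?_ hε.le) hK0.le
    exact_mod_cast Nat.le_of_dvd hr (Nat.prod_primeFactors_dvd r)
  calc (2 : ℝ) ^ r.primeFactors.card * (C * (N : ℝ) ^ ε * √H) ≤ (K * (r : ℝ) ^ ε) * (C * (N : ℝ) ^ ε * √H) :=
        mul_le_mul_of_nonneg_right h4 (by positivity)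
    _ = _ := by ring

/-- the primitive cube root of unity -/
noncomputable def zt : ℂ := Complex.exp (2 * Real.pi * Complex.I / 3)

lemma zt_cube : zt ^ 3 = 1 := by
  unfold zt
  rw [← Complex.exp_nat_mul]
  rw [show ((3 : ℕ) : ℂ) * (2 * Real.pi * Complex.I / 3) = 2 * Real.pi * Complex.I by push_cast; ring]
  exact Complex.exp_two_pi_mul_I

lemma zt_sum : 1 + zt + zt ^ 2 = 0 := by
  have h1 : IsPrimitiveRoot zt 3 := by
    have := Complex.isPrimitiveRoot_exp 3 (by norm_num)
    unfold zt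
    convert this using 2
    norm_num
  have h2 := h1.geom_sum_eq_zero (by norm_num)
  rw [Finset.sum_range_succ, Finset.sum_range_succ, Finset.sum_range_one] at h2
  simpa using h2

/-- the model exists -/
theorem exists_cubes : ∃ (Ω : Type) (_ : MeasurableSpace Ω) (P : Measure Ω) (_ : IsProbabilityMeasure P)
    (f : ℕ → Ω → ℂ), Cubes P f := by
  set μ : ℕ → Measure (Fin 3) := fun _ => (PMF.uniformOfFintype (Fin 3)).toMeasure with hμ
  haveI : ∀ i, IsProbabilityMeasure (μ i) := fun i => PMF.toMeasure.isProbabilityMeasure _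
  set X : Fin 3 → ℂ := fun x => zt ^ (x : ℕ) with hX
  have mX : Measurable X := measurable_of_finite _
  refine ⟨ℕ → Fin 3, inferInstance, Measure.infinitePi μ, inferInstance, fun p ω => X (ω p), ?_⟩
  refine ⟨fun p => mX.comp (measurable_pi_apply p), iIndepFun_infinitePi fun _ => mX, ?_, ?_⟩
  · intro p ω
    simp only [hX]
    rw [← pow_mul, mul_comm, pow_mul, zt_cube, one_pow]
  · intro p
    have h1 : ∫ ω, X (ω p) ∂(Measure.infinitePi μ) = ∫ x, X x ∂(μ p) := by
      have h2 := Measure.infinitePi_map_eval μ p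
      rw [← h2, integral_map (measurable_pi_apply p).aemeasurable (by exact mX.aestronglyMeasurable)]
    rw [h1, hμ]
    simp only
    rw [PMF.integral_eq_sum]
    simp only [PMF.uniformOfFintype_apply, Fin.sum_univ_three, hX, Fintype.card_fin]
    have := zt_sum
    simp only [Fin.val_zero, Fin.val_one, Fin.val_two, pow_zero, pow_one]
    rw [← smul_add, ← smul_add, this, smul_zero]

end Pool.Agent.U585.CM
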